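import Mathlib
import Pool.Agent.H32.Inter

namespace Pool.Agent.Results.MP_91ff8f_lc.PolyBound
open Finset

/-- The integer box `{x : 0 ≤ x ≤ c}`. -/
def box {n : ℕ} (c : Fin n → ℤ) : Set (Fin n → ℤ) := {x | 0 ≤ x ∧ x ≤ c}

/-- `f(x) = ‖A x‖₂ + bᵀ x`. -/
noncomputable def soc {n d : ℕ} (A : Matrix (Fin d) (Fin n) ℝ) (b : Fin n → ℝ)
    (x : Fin n → ℤ) : ℝ :=
  Real.sqrt (∑ k, (∑ j, A k j * (x j : ℝ)) ^ 2) + ∑ j, b j * (x j : ℝ)

/-- The family `F` of maximal feasible vectors. -/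
def maxFeas {n d : ℕ} (c : Fin n → ℤ) (A : Matrix (Fin d) (Fin n) ℝ) (b : Fin n → ℝ) (t : ℝ) :
    Set (Fin n → ℤ) :=
  {x | Maximal (fun z => z ∈ box c ∧ soc A b z ≤ t) x}

/-- `I(𝒜)`: the minimal elements of the box not dominated by any member of `𝒜`. -/
def minND {n : ℕ} (c : Fin n → ℤ) (𝒜 : Set (Fin n → ℤ)) : Set (Fin n → ℤ) :=
  {x | Minimal (fun z => z ∈ box c ∧ ∀ a ∈ 𝒜, ¬ z ≤ a) x}

lemma box_finite {n : ℕ} (c : Fin n → ℤ) : (box c).Finite := by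
  have : box c = Set.Icc 0 c := rfl
  rw [this]
  exact Set.finite_Icc _ _

noncomputable def ph {n d : ℕ} (A : Matrix (Fin d) (Fin n) ℝ) (r : Fin n → ℝ) : ℝ :=
  ∑ k, (∑ j, A k j * r j) ^ 2

noncomputable def ps {n : ℕ} (b : Fin n → ℝ) (r : Fin n → ℝ) : ℝ := ∑ j, b j * r j

lemma ph_mono {n d : ℕ} (A : Matrix (Fin d) (Fin n) ℝ) (hA : ∀ k j, 0 ≤ A k j)
    (r r' : Fin n → ℝ) (h0 : ∀ j, 0 ≤ r j) (h : ∀ j, r j ≤ r' j) : ph A r ≤ ph A r' := by
  unfold ph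
  refine sum_le_sum fun k _ => ?_
  refine pow_le_pow_left₀ (sum_nonneg fun j _ => mul_nonneg (hA k j) (h0 j)) ?_ 2
  exact sum_le_sum fun j _ => mul_le_mul_of_nonneg_left (h j) (hA k j)

lemma ps_mono {n : ℕ} (b : Fin n → ℝ) (hb : ∀ j, 0 ≤ b j)
    (r r' : Fin n → ℝ) (h : ∀ j, r j ≤ r' j) : ps b r ≤ ps b r' :=
  sum_le_sum fun j _ => mul_le_mul_of_nonneg_left (h j) (hb j)

lemma infeas {n d : ℕ} (c : Fin n → ℤ) (A : Matrix (Fin d) (Fin n) ℝ) (b : Fin n → ℝ) (t : ℝ)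
    (x : Fin n → ℤ) (hx : x ∈ minND c (maxFeas c A b t)) : t < soc A b x := by
  by_contra hc
  push Not at hc
  have hfin : {z | z ∈ box c ∧ soc A b z ≤ t}.Finite := (box_finite c).subset fun z hz => hz.1
  obtain ⟨a, hxa, ha⟩ := hfin.exists_le_maximal (a := x) ⟨hx.1.1, hc⟩
  exact hx.1.2 a ha hxa

lemma coord {n : ℕ} (c : Fin n → ℤ) (Y : Set (Fin n → ℤ)) (x : Fin n → ℤ)
    (hx : x ∈ minND c Y) (i : Fin n) : x i = 0 ∨ ∃ y ∈ Y, x i = y i + 1 := by
  by_cases h0 : x i = 0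
  · exact Or.inl h0
  right
  have hxi : 0 ≤ x i := hx.1.1.1 i
  set z := Function.update x i (x i - 1) with hz
  have hzx : z ≤ x := by
    intro j
    by_cases hj : j = i
    · subst hj; simp [hz]
    · simp [hz, Function.update_of_ne hj]
  have hzb : z ∈ box c := by
    refine ⟨fun j => ?_, le_trans hzx hx.1.1.2⟩
    by_cases hj : j = i
    · subst hj; simp only [hz, Function.update_self, Pi.zero_apply]; omega
    · simp only [hz, Function.update_of_ne hj]; exact hx.1.1.1 j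
  by_contra hcon
  push Not at hcon
  have : ∀ a ∈ Y, ¬ z ≤ a := by
    intro a ha hza
    apply hx.1.2 a ha
    intro j
    by_cases hj : j = i
    · subst hj
      have h1 := hza j
      simp only [hz, Function.update_self] at h1
      have h2 := hcon a ha
      have h4 : x j ≤ a j := by omega
      exact h4
    · have h1 := hza j
      simp only [hz, Function.update_of_ne hj] at h1
      exact h1
  have h3 := hx.2 ⟨hzb, this⟩ hzx i
  simp only [hz, Function.update_self] at h3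
  omega

lemma meet {n : ℕ} (c : Fin n → ℤ) (Y : Set (Fin n → ℤ)) (x x' : Fin n → ℤ)
    (hx : x ∈ minND c Y) (hx' : x' ∈ minND c Y) (hne : x ≠ x') : ∃ y ∈ Y, x ⊓ x' ≤ y := by
  by_contra hcon
  push Not at hcon
  have hb : x ⊓ x' ∈ box c := ⟨le_inf hx.1.1.1 hx'.1.1.1, le_trans inf_le_left hx.1.1.2⟩
  have h1 : x ≤ x ⊓ x' := hx.2 ⟨hb, hcon⟩ inf_le_left
  have h2 : x' ≤ x ⊓ x' := hx'.2 ⟨hb, hcon⟩ inf_le_right
  exact hne (le_antisymm (le_trans h1 inf_le_right) (le_trans h2 inf_le_left))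

open Pool.Agent.H32.Inter in
lemma main {n d : ℕ} (A : Matrix (Fin d) (Fin n) ℝ) (hA : ∀ k j, 0 ≤ A k j)
    (b : Fin n → ℝ) (hb : ∀ j, 0 ≤ b j) (t : ℝ) (S T : Finset (Fin n → ℤ))
    (hT0 : ∀ y ∈ T, ∀ i, 0 ≤ y i) (hTf : ∀ y ∈ T, soc A b y ≤ t) (hSf : ∀ x ∈ S, t < soc A b x)
    (hco : ∀ x ∈ S, ∀ i, x i = 0 ∨ ∃ y ∈ T, x i = y i + 1)
    (hme : ∀ x ∈ S, ∀ x' ∈ S, x ≠ x' → ∃ y ∈ T, x ⊓ x' ≤ y) :
    S.card ≤ (T.card + 1) * ((1 + n ^ 2 * T.card ^ 3) * (1 + n * T.card ^ 2)) := by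
  classical
  set V : Fin n → Finset ℤ := fun i => T.image (fun y => y i + 1) with hV
  have hV1 : ∀ i, ∀ v ∈ V i, 1 ≤ v := by
    intro i v hv
    obtain ⟨y, hy, rfl⟩ := mem_image.1 hv
    have := hT0 y hy i
    omega
  choose δ hδ0 hδ1 hδ2 using fun i => incr (V i) (hV1 i)
  set U : Finset (Σ _ : Fin n, ℤ) := univ.sigma V with hU
  have hUc : U.card ≤ n * T.card := by
    rw [hU, card_sigma]
    have := sum_le_card_nsmul (univ : Finset (Fin n)) (fun i => (V i).card) T.card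
      (fun i _ => card_image_le)
    simpa using this
  set m2 : (Σ _ : Fin n, ℤ) → (Fin n → ℤ) → Prop := fun u z => u.2 ≤ z u.1 with hm2
  set hat : (Fin n → ℤ) → Fin n → ℝ := fun z i => ∑ v ∈ V i, if v ≤ z i then δ i v else 0
    with hhat
  have hlin : ∀ (a : Fin n → ℝ) (z : Fin n → ℤ),
      W m2 (fun u => a u.1 * δ u.1 u.2) U z = ∑ j, a j * hat z j := by
    intro a z
    unfold W
    rw [hU, sum_sigma]
    refine sum_congr rfl fun j _ => ?_
    simp only [hhat, hm2]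
    rw [mul_sum]
    refine sum_congr rfl fun v _ => ?_
    split_ifs <;> simp
  set m1 : ((Σ _ : Fin n, ℤ) × (Σ _ : Fin n, ℤ)) → (Fin n → ℤ) → Prop :=
    fun p z => m2 p.1 z ∧ m2 p.2 z with hm1
  set w1 : ((Σ _ : Fin n, ℤ) × (Σ _ : Fin n, ℤ)) → ℝ :=
    fun p => ∑ k, (A k p.1.1 * δ p.1.1 p.1.2) * (A k p.2.1 * δ p.2.1 p.2.2) with hw1
  have hquad : ∀ z, W m1 w1 (U ×ˢ U) z = ph A (hat z) := by
    intro z
    unfold ph
    have : ∀ k, (∑ j, A k j * hat z j) ^ 2 = ∑ p ∈ U ×ˢ U, if m1 p z then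
        (A k p.1.1 * δ p.1.1 p.1.2) * (A k p.2.1 * δ p.2.1 p.2.2) else 0 := by
      intro k
      rw [← hlin (A k) z, sq]
      unfold W
      rw [sum_mul_sum, sum_product]
      refine sum_congr rfl fun u _ => sum_congr rfl fun u' _ => ?_
      by_cases h1 : m2 u z <;> by_cases h2 : m2 u' z <;> simp [hm1, h1, h2]
    rw [sum_congr rfl fun k _ => this k, sum_comm]
    unfold W
    refine sum_congr rfl fun p _ => ?_
    by_cases h : m1 p z
    · simp only [if_pos h, hw1]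
    · simp only [if_neg h, sum_const_zero]
  have hhat0 : ∀ z i, 0 ≤ hat z i := by
    intro z i
    refine sum_nonneg fun v _ => ?_
    split_ifs
    · exact hδ0 i v
    · exact le_rfl
  have h := two m1 w1 ?_ (U ×ˢ U) m2 (fun u => b u.1 * δ u.1 u.2)
    (fun u => mul_nonneg (hb _) (hδ0 _ _)) U S T ?_ ?_
  · refine le_trans h (Nat.mul_le_mul_left _ (Nat.mul_le_mul ?_ ?_))
    · rw [card_product]
      have h1 : U.card * U.card * T.card ≤ (n * T.card) * (n * T.card) * T.card :=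
        Nat.mul_le_mul_right _ (Nat.mul_le_mul hUc hUc)
      have h2 : (n * T.card) * (n * T.card) * T.card = n ^ 2 * T.card ^ 3 := by ring
      omega
    · have h1 : U.card * T.card ≤ (n * T.card) * T.card := Nat.mul_le_mul_right _ hUc
      have h2 : (n * T.card) * T.card = n * T.card ^ 2 := by ring
      omega
  · intro p
    exact sum_nonneg fun k _ => mul_nonneg (mul_nonneg (hA _ _) (hδ0 _ _))
      (mul_nonneg (hA _ _) (hδ0 _ _))
  · intro x hx y hy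
    rw [hquad, hquad, hlin, hlin]
    have ex : hat x = fun j => (x j : ℝ) := by
      funext j
      refine hδ2 j (x j) ?_
      rcases hco x hx j with h | ⟨y', hy', h⟩
      · exact Or.inl h
      · exact Or.inr (mem_image.2 ⟨y', hy', h.symm⟩)
    have ey : ∀ j, hat y j ≤ (y j : ℝ) := fun j => hδ1 j (y j) (hT0 y hy j)
    have h1 := ph_mono A hA _ (fun j => (y j : ℝ)) (hhat0 y) ey
    have h2 := ps_mono b hb _ (fun j => (y j : ℝ)) ey
    by_contra hcon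
    push Not at hcon
    obtain ⟨c1, c2⟩ := hcon
    rw [ex] at c1 c2
    have h3 := hSf x hx
    have h4 := hTf y hy
    have h5 : Real.sqrt (ph A fun j => (x j : ℝ)) ≤ Real.sqrt (ph A fun j => (y j : ℝ)) :=
      Real.sqrt_le_sqrt (le_trans c1 h1)
    unfold soc at h3 h4
    unfold ph at h5
    unfold ps at h2
    linarith
  · intro x hx x' hx' hne
    obtain ⟨y, hy, hle⟩ := hme x hx x' hx' hne
    have : ∀ u, m2 u x → m2 u x' → m2 u y := fun u h1 h2 =>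
      le_trans (le_inf h1 h2) (hle u.1)
    exact ⟨y, hy, fun p _ h1 h2 => ⟨this _ h1.1 h2.1, this _ h1.2 h2.2⟩, fun u _ => this u⟩

theorem result : ∃ p : MvPolynomial (Fin 3) ℕ,
    (∀ n d m : ℕ, MvPolynomial.eval ![n, d, m] p =
      (m + 1) * ((1 + n ^ 2 * m ^ 3) * (1 + n * m ^ 2))) ∧
    ∀ (n d : ℕ) (c : Fin n → ℤ) (A : Matrix (Fin d) (Fin n) ℝ) (b : Fin n → ℝ) (t : ℝ),
      0 ≤ c → (∀ k j, 0 ≤ A k j) → (∀ j, 0 ≤ b j) →
      ∀ Y : Set (Fin n → ℤ), Y ⊆ maxFeas c A b t →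
        Y.Finite ∧ (minND c Y ∩ minND c (maxFeas c A b t)).Finite ∧
        (minND c Y ∩ minND c (maxFeas c A b t)).ncard ≤ MvPolynomial.eval ![n, d, Y.ncard] p := by
  refine ⟨(MvPolynomial.X 2 + 1) * ((1 + MvPolynomial.X 0 ^ 2 * MvPolynomial.X 2 ^ 3) *
    (1 + MvPolynomial.X 0 * MvPolynomial.X 2 ^ 2)), ?_, ?_⟩
  · intro n d m
    simp
  intro n d c A b t _ hA hb Y hY
  have hYf : Y.Finite := (box_finite c).subset fun y hy => (hY hy).1.1
  have hSf : (minND c Y ∩ minND c (maxFeas c A b t)).Finite :=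
    (box_finite c).subset fun x hx => hx.1.1.1
  refine ⟨hYf, hSf, ?_⟩
  have h := main A hA b hb t hSf.toFinset hYf.toFinset
    (fun y hy i => (hY (hYf.mem_toFinset.1 hy)).1.1.1 i)
    (fun y hy => (hY (hYf.mem_toFinset.1 hy)).1.2)
    (fun x hx => infeas c A b t x (hSf.mem_toFinset.1 hx).2)
    (fun x hx i => by
      rcases coord c Y x (hSf.mem_toFinset.1 hx).1 i with h | ⟨y, hy, h⟩
      · exact Or.inl h
      · exact Or.inr ⟨y, hYf.mem_toFinset.2 hy, h⟩)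
    (fun x hx x' hx' hne => by
      obtain ⟨y, hy, h⟩ := meet c Y x x' (hSf.mem_toFinset.1 hx).1 (hSf.mem_toFinset.1 hx').1 hne
      exact ⟨y, hYf.mem_toFinset.2 hy, h⟩)
  rw [Set.ncard_eq_toFinset_card _ hSf, Set.ncard_eq_toFinset_card _ hYf]
  simpa using h

end Pool.Agent.Results.MP_91ff8f_lc.PolyBound
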